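import Mathlib

/-! Statement level definitions: a closed surface covered by the plane is presented as
the plane modulo a group of diffeomorphisms, and all objects are lifted to the plane. -/

open Set Filter Topology MeasureTheory
open scoped ContDiff

namespace Pool.Agent.Work.MP_1ce82a_an

/-- The plane, universal cover of the surface. -/
abbrev E : Type := ℝ × ℝ

/-- Groups of bijections of the plane. -/
abbrev Grp : Type := Subgroup (Equiv.Perm E)

/-- The differential of a deck transformation. -/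
noncomputable def dk {Γ : Grp} (γ : Γ) (x : E) : E →L[ℝ] E := fderiv ℝ (fun y : E => γ • y) x

/-- The quotient of the plane by `Γ` is a closed smooth surface: `Γ` acts smoothly,
freely, properly discontinuously and cocompactly. -/
structure Surf (Γ : Grp) : Prop where
  smooth : ∀ γ : Γ, ContDiff ℝ ∞ (fun x : E => γ • x)
  free : ∀ (γ : Γ) (x : E), γ • x = x → γ = 1
  proper : ∀ K : Set E, IsCompact K → {γ : Γ | ∃ x ∈ K, γ • x ∈ K}.Finite
  cocompact : ∃ K : Set E, IsCompact K ∧ ∀ x : E, ∃ γ : Γ, γ • x ∈ K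

/-- The surface carries no continuous nowhere vanishing vector field. -/
def NoField (Γ : Grp) : Prop :=
  ¬ ∃ V : E → E, Continuous V ∧ (∀ x, V x ≠ 0) ∧ ∀ (γ : Γ) (x : E), V (γ • x) = dk γ x (V x)

/-- The second derivative of a Lagrangian. -/
noncomputable def D2 (L : E × E → ℝ) (z : E × E) : E × E →L[ℝ] E × E →L[ℝ] ℝ :=
  fderiv ℝ (fderiv ℝ L) z

/-- Autonomous Tonelli Lagrangians on the tangent bundle of the surface. -/
structure Tonelli (Γ : Grp) (L : E × E → ℝ) : Prop where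
  c2 : ContDiff ℝ 2 L
  inv : ∀ (γ : Γ) (x v : E), L (γ • x, dk γ x v) = L (x, v)
  conv : ∀ (z : E × E) (w : E), w ≠ 0 → 0 < D2 L z (0, w) (0, w)
  super : ∀ x : E, Tendsto (fun v : E => L (x, v) / ‖v‖) (cocompact E) atTop

/-- First real cohomology: additive characters of the deck group. -/
def H1 (Γ : Grp) : Submodule ℝ (Γ → ℝ) where
  carrier := {c | ∀ a b : Γ, c (a * b) = c a + c b}
  add_mem' := fun {c d} hc hd a b => by
    simp only [Pi.add_apply, hc a b, hd a b]; ring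
  zero_mem' := fun a b => by simp
  smul_mem' := fun r c hc a b => by
    simp only [Pi.smul_apply, smul_eq_mul, hc a b]; ring

/-- Full Lebesgue measure in the first cohomology. -/
def Full {Γ : Grp} (U : Set (H1 Γ)) : Prop :=
  ∃ (b : ℕ) (e : (Fin b → ℝ) ≃ₗ[ℝ] H1 Γ), ∀ᵐ t : Fin b → ℝ, e t ∈ U

/-- Smooth functions on the surface. -/
def Cinf (Γ : Grp) : Type :=
  {f : E → ℝ // ContDiff ℝ ∞ f ∧ ∀ (γ : Γ) (x : E), f (γ • x) = f x}

/-- All derivatives of a smooth function. -/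
noncomputable def jets {Γ : Grp} (f : Cinf Γ) (k : ℕ) : C(E, E [×k]→L[ℝ] ℝ) :=
  ⟨iteratedFDeriv ℝ k f.1, f.2.1.continuous_iteratedFDeriv (by exact_mod_cast le_top)⟩

/-- The smooth topology: uniform convergence of every derivative on compact sets. -/
noncomputable instance instTopCinf (Γ : Grp) : TopologicalSpace (Cinf Γ) :=
  TopologicalSpace.induced jets inferInstance

/-- The Lagrangian `L + f`. -/
def addPot (L : E × E → ℝ) (f : E → ℝ) : E × E → ℝ := fun z => L z + f z.1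

/-- `u` is the lift of a `C^1` subsolution at level `a` in the cohomology class `c`. -/
def IsSub {Γ : Grp} (L : E × E → ℝ) (c : H1 Γ) (a : ℝ) (u : E → ℝ) : Prop :=
  ContDiff ℝ 1 u ∧ (∀ (γ : Γ) (x : E), u (γ • x) = u x + c.1 γ) ∧
    ∀ x v : E, fderiv ℝ u x v ≤ L (x, v) + a

/-- The critical value. -/
noncomputable def alpha {Γ : Grp} (L : E × E → ℝ) (c : H1 Γ) : ℝ :=
  sInf {a | ∃ u, IsSub L c a u}

/-- The Aubry set in the sense of Fathi, lifted to the plane. -/
def aubry {Γ : Grp} (L : E × E → ℝ) (c : H1 Γ) : Set (E × E) :=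
  {z | ∀ u, IsSub L c (alpha L c) u → fderiv ℝ u z.1 z.2 = L z + alpha L c}

/-- Position and velocity. -/
noncomputable def ph (x : ℝ → E) (t : ℝ) : E × E := (x t, deriv x t)

/-- The fibre part of a covector on the tangent bundle. -/
noncomputable def vpart (p : E × E →L[ℝ] ℝ) : E →L[ℝ] ℝ := p.comp (ContinuousLinearMap.inr ℝ E E)

/-- The base part of a covector on the tangent bundle. -/
noncomputable def xpart (p : E × E →L[ℝ] ℝ) : E →L[ℝ] ℝ := p.comp (ContinuousLinearMap.inl ℝ E E)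

/-- Solutions of the Euler-Lagrange equation. -/
def IsOrbit (L : E × E → ℝ) (x : ℝ → E) : Prop :=
  ContDiff ℝ 1 x ∧
    ∀ t, HasDerivAt (fun s => vpart (fderiv ℝ L (ph x s))) (xpart (fderiv ℝ L (ph x t))) t

/-- Solutions of the linearised Euler-Lagrange equation along `x`. -/
def IsJacobi (L : E × E → ℝ) (x ξ : ℝ → E) : Prop :=
  ContDiff ℝ 1 ξ ∧
    ∀ t, HasDerivAt (fun s => vpart (D2 L (ph x s) (ph ξ s))) (xpart (D2 L (ph x t) (ph ξ t))) t

/-- The energy. -/
noncomputable def energy (L : E × E → ℝ) (z : E × E) : ℝ := fderiv ℝ L z (0, z.2) - L z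

/-- A nonzero Jacobi field tangent to the energy level which the linearised return map
multiplies by `l`. -/
def IsEig {Γ : Grp} (L : E × E → ℝ) (x : ℝ → E) (P : ℝ) (σ : Γ) (l : ℝ) (ξ : ℝ → E) : Prop :=
  IsJacobi L x ξ ∧ ξ ≠ 0 ∧ (∀ t, fderiv ℝ (energy L) (ph x t) (ph ξ t) = 0) ∧
    ∀ t, ξ (t + P) = l • dk σ (x t) (ξ t)

/-- `x` is a lift of a periodic orbit which is hyperbolic in its energy level. -/
def HypPer (Γ : Grp) (L : E × E → ℝ) (x : ℝ → E) : Prop :=
  IsOrbit L x ∧ deriv x 0 ≠ 0 ∧ ∃ (P : ℝ) (σ : Γ), 0 < P ∧ (∀ t, x (t + P) = σ • x t) ∧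
    ∃ (a b : ℝ) (ξ ζ : ℝ → E), |a| < 1 ∧ 1 < |b| ∧ IsEig L x P σ a ξ ∧ IsEig L x P σ b ζ

/-- `x` is a constant orbit whose linearisation has no purely imaginary eigenvalue. -/
def HypFix (L : E × E → ℝ) (x : ℝ → E) : Prop :=
  IsOrbit L x ∧ (∀ t, x t = x 0) ∧ ∀ (κ : ℝ) (a b : E),
    IsJacobi L x (fun t => Real.cos (κ * t) • a + Real.sin (κ * t) • b) →
      ∀ t, Real.cos (κ * t) • a + Real.sin (κ * t) • b = 0

/-- The lift to the plane of the orbit of `x` in the tangent bundle of the surface. -/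
def orb (Γ : Grp) (x : ℝ → E) : Set (E × E) :=
  {z | ∃ (γ : Γ) (t : ℝ), z = (γ • x t, dk γ (x t) (deriv x t))}

/-- The classes whose Aubry set is one hyperbolic periodic orbit or one hyperbolic fixed point. -/
def Uset {Γ : Grp} (L : E × E → ℝ) (f : Cinf Γ) : Set (H1 Γ) :=
  {c | ∃ x : ℝ → E, (HypPer Γ (addPot L f.1) x ∨ HypFix (addPot L f.1) x) ∧
    aubry (addPot L f.1) c = orb Γ x}

/-- Integer translations. -/
def Z2 : Grp where
  carrier := {σ | ∃ m n : ℤ, ∀ x : E, σ x = x + ((m : ℝ), (n : ℝ))}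
  mul_mem' := by
    rintro σ τ ⟨m, n, h⟩ ⟨m', n', h'⟩
    refine ⟨m' + m, n' + n, fun x => ?_⟩
    rw [Equiv.Perm.mul_apply, h, h']
    ext <;> simp [add_assoc]
  one_mem' := ⟨0, 0, fun x => by simp [Prod.ext_iff]⟩
  inv_mem' := by
    rintro σ ⟨m, n, h⟩
    refine ⟨-m, -n, fun x => ?_⟩
    rw [Equiv.Perm.inv_eq_iff_eq, h]
    ext <;> simp

/-- The kinetic energy of the flat metric. -/
noncomputable def flat (z : E × E) : ℝ := (z.2.1 ^ 2 + z.2.2 ^ 2) / 2

end Pool.Agent.Work.MP_1ce82a_an
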